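import Pool.Agent.H435R3.Paley.Avg

/-! # Invariant sets and geometric progressions -/

set_option autoImplicit false

namespace Pool.Agent.H435R3.Paley

open Finset Pool.Agent.H471R4.BW

open Classical in
/-- sets `B` that are invariant under a group `H` of dilations, sets `A` that meet every
orbit of `H` in at most `m` points -/
theorem invariant (ε : ℝ) (hε : 0 < ε) : ∃ δ : ℝ, 0 < δ ∧ ∀ K : ℕ → ℝ, (∀ r, 0 ≤ K r) →
    ∃ p₀ : ℕ, ∀ (p : ℕ) [Fact p.Prime], p₀ ≤ p → ∀ χ : DirichletCharacter ℂ p, Good p χ K →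
    ∀ (H : Subgroup (ZMod p)ˣ) (A B : Finset (ZMod p)) (m : ℕ),
      (∀ h ∈ H, ∀ b ∈ B, (h : ZMod p) * b ∈ B) →
      (∀ a ∈ A, (univ.filter fun h : (ZMod p)ˣ => h ∈ H ∧ (h : ZMod p) * a ∈ A).card ≤ m) →
      (p : ℝ) ^ ε ≤ B.card → (m : ℝ) * (p : ℝ) ^ (1 / 2 + ε) ≤ A.card * Nat.card H →
      ‖∑ a ∈ A, ∑ b ∈ B, χ (a + b)‖ ≤ (p : ℝ) ^ (-δ) * (A.card * B.card) := by
  obtain ⟨δ, hδ, h⟩ := avg ε hε
  refine ⟨δ, hδ, fun K hK => ?_⟩
  obtain ⟨p₀, hp₀⟩ := h K hK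
  refine ⟨p₀, fun p _ hp χ hχ H A B m hinv hm hB hA => ?_⟩
  have hpp : p.Prime := Fact.out
  have hp0 : (0 : ℝ) < p := by exact_mod_cast hpp.pos
  set T : Finset (ZMod p) := (univ.filter fun h : (ZMod p)ˣ => h ∈ H).image
    (fun h : (ZMod p)ˣ => (h : ZMod p)) with hT
  have hTmem : ∀ t, t ∈ T ↔ ∃ h : (ZMod p)ˣ, h ∈ H ∧ (h : ZMod p) = t := by
    intro t
    rw [hT, mem_image]
    simp
  have hT0 : (0 : ZMod p) ∉ T := by
    rw [hTmem]
    rintro ⟨h, -, h0⟩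
    exact h.ne_zero h0
  have hTcard : T.card = Nat.card H := by
    rw [hT, card_image_of_injective _ Units.val_injective, Nat.card_eq_fintype_card,
      Fintype.card_subtype]
  have hconst : ∀ t ∈ T, dsum χ A B t = ∑ a ∈ A, ∑ b ∈ B, χ (a + b) := by
    intro t ht
    obtain ⟨h, hh, rfl⟩ := (hTmem t).1 ht
    unfold dsum
    refine sum_congr rfl fun a _ => ?_
    refine Finset.sum_bij (fun b _ => (h : ZMod p) * b) (fun b hb => hinv h hh b hb)
      (fun b _ c _ hbc => mul_left_cancel₀ h.ne_zero hbc) (fun c hc => ?_) (fun b _ => rfl)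
    refine ⟨((h⁻¹ : (ZMod p)ˣ) : ZMod p) * c, hinv _ (H.inv_mem hh) c hc, ?_⟩
    rw [← mul_assoc, Units.mul_inv, one_mul]
  have hE : energy A T ≤ A.card * T.card * m := by
    refine energy_le _ _ _ fun a ha t ht => le_trans ?_ (hm a ha)
    obtain ⟨g, hg, rfl⟩ := (hTmem t).1 ht
    -- (a', t') with a t' = a' g  ↦  t' / g
    refine Finset.card_le_card_of_injOn
      (fun w => if hw : w.2 ≠ 0 then Units.mk0 w.2 hw * g⁻¹ else 1) ?_ ?_
    · intro w hw
      rw [mem_coe, mem_filter, mem_product] at hw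
      obtain ⟨k, hk, hk2⟩ := (hTmem w.2).1 hw.1.2
      have hw0 : w.2 ≠ 0 := by rw [← hk2]; exact k.ne_zero
      have hk3 : Units.mk0 w.2 hw0 = k := Units.ext hk2.symm
      rw [mem_coe, mem_filter]
      simp only [dif_pos hw0]
      refine ⟨mem_univ _, ?_, ?_⟩
      · rw [hk3]
        exact H.mul_mem hk (H.inv_mem hg)
      · rw [Units.val_mul, Units.val_mk0]
        have : w.2 * ((g⁻¹ : (ZMod p)ˣ) : ZMod p) * a = w.1 := by
          have h1 := hw.2
          calc w.2 * ((g⁻¹ : (ZMod p)ˣ) : ZMod p) * a = (a * w.2) * ((g⁻¹ : (ZMod p)ˣ) : ZMod p) := by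
                ring
            _ = w.1 * (g : ZMod p) * ((g⁻¹ : (ZMod p)ˣ) : ZMod p) := by rw [h1]
            _ = w.1 := by rw [mul_assoc, Units.mul_inv, mul_one]
        rw [this]
        exact hw.1.1
    · intro w hw w' hw' h2
      rw [mem_coe, mem_filter, mem_product] at hw hw'
      have hw0 : w.2 ≠ 0 := fun h0 => hT0 (h0 ▸ hw.1.2)
      have hw0' : w'.2 ≠ 0 := fun h0 => hT0 (h0 ▸ hw'.1.2)
      simp only [dif_pos hw0, dif_pos hw0'] at h2
      have h3 := mul_right_cancel h2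
      have h4 : w.2 = w'.2 := by
        have := congrArg Units.val h3
        simpa using this
      refine Prod.ext ?_ h4
      have h5 : w.1 * (g : ZMod p) = w'.1 * g := by rw [← hw.2, ← hw'.2, h4]
      exact mul_right_cancel₀ g.ne_zero h5
  have hE' : (energy A T : ℝ) * (p : ℝ) ^ (1 / 2 + ε) ≤ ((A.card : ℝ) * T.card) ^ 2 := by
    have h1 : (energy A T : ℝ) ≤ (A.card : ℝ) * T.card * m := by exact_mod_cast hE
    rw [← hTcard] at hA
    calc _ ≤ ((A.card : ℝ) * T.card * m) * (p : ℝ) ^ (1 / 2 + ε) :=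
          mul_le_mul_of_nonneg_right h1 (by positivity)
      _ = ((A.card : ℝ) * T.card) * (m * (p : ℝ) ^ (1 / 2 + ε)) := by ring
      _ ≤ ((A.card : ℝ) * T.card) * (A.card * T.card) :=
          mul_le_mul_of_nonneg_left hA (by positivity)
      _ = _ := by ring
  have h1 := hp₀ p hp χ hχ A B T hT0 hB hE'
  rw [sum_congr rfl fun t ht => by rw [hconst t ht], sum_const, nsmul_eq_mul] at h1
  have hTpos : (0 : ℝ) < T.card := by
    rw [hTcard]
    exact_mod_cast Nat.card_pos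
  have h2 : (T.card : ℝ) * ‖∑ a ∈ A, ∑ b ∈ B, χ (a + b)‖ ≤
      (T.card : ℝ) * ((p : ℝ) ^ (-δ) * (A.card * B.card)) := by
    refine h1.trans (le_of_eq ?_)
    ring
  exact le_of_mul_le_mul_left h2 hTpos

/-- dilating a geometric progression by `g ^ j` changes the sum by at most `2 j` for every `a` -/
theorem gp_shift {p : ℕ} [Fact p.Prime] (χ : DirichletCharacter ℂ p) (c a : ZMod p)
    (g : ZMod p) (N j : ℕ) :
    ‖(∑ i ∈ range N, χ (a + c * g ^ i)) - ∑ i ∈ range N, χ (a + g ^ j * (c * g ^ i))‖ ≤ 2 * j := by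
  have e : ∀ i, χ (a + g ^ j * (c * g ^ i)) = χ (a + c * g ^ (j + i)) := by
    intro i
    congr 2
    rw [pow_add]
    ring
  have h1 : ∑ i ∈ range N, χ (a + g ^ j * (c * g ^ i)) =
      (∑ i ∈ range (j + N), χ (a + c * g ^ i)) - ∑ i ∈ range j, χ (a + c * g ^ i) := by
    rw [sum_range_add]
    simp only [e]
    ring
  have h2 : (∑ i ∈ range (j + N), χ (a + c * g ^ i)) =
      (∑ i ∈ range N, χ (a + c * g ^ i)) + ∑ i ∈ range j, χ (a + c * g ^ (N + i)) := by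
    rw [add_comm j N, sum_range_add]
  rw [h1, h2]
  have hn : ∀ f : ℕ → ZMod p, ‖∑ i ∈ range j, χ (f i)‖ ≤ j := by
    intro f
    refine (norm_sum_le _ _).trans ?_
    calc ∑ i ∈ range j, ‖χ (f i)‖ ≤ ∑ _i ∈ range j, (1 : ℝ) :=
          sum_le_sum fun b _ => χ.norm_le_one _
      _ = j := by simp
  have e2 : (∑ i ∈ range N, χ (a + c * g ^ i)) -
      ((∑ i ∈ range N, χ (a + c * g ^ i)) + ∑ i ∈ range j, χ (a + c * g ^ (N + i)) -
        ∑ i ∈ range j, χ (a + c * g ^ i)) =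
      (∑ i ∈ range j, χ (a + c * g ^ i)) - ∑ i ∈ range j, χ (a + c * g ^ (N + i)) := by ring
  rw [e2]
  refine (norm_sub_le _ _).trans ?_
  have := hn (fun i => a + c * g ^ i)
  have := hn (fun i => a + c * g ^ (N + i))
  linarith

open Classical in
/-- geometric progressions `B`, sets `A` with at most `m` elements in every geometric
progression with the same ratio and length -/
theorem progression (ε : ℝ) (hε : 0 < ε) : ∃ δ : ℝ, 0 < δ ∧ ∀ K : ℕ → ℝ, (∀ r, 0 ≤ K r) →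
    ∃ p₀ : ℕ, ∀ (p : ℕ) [Fact p.Prime], p₀ ≤ p → ∀ χ : DirichletCharacter ℂ p, Good p χ K →
    ∀ (g : (ZMod p)ˣ) (c : ZMod p) (N m : ℕ) (A : Finset (ZMod p)), c ≠ 0 → N ≤ orderOf g →
      (∀ x : ZMod p, ((range N).filter fun j => x * (g : ZMod p) ^ j ∈ A).card ≤ m) →
      (p : ℝ) ^ ε ≤ N → (m : ℝ) * (p : ℝ) ^ (1 / 2 + ε) ≤ A.card * N →
      ‖∑ a ∈ A, ∑ i ∈ range N, χ (a + c * (g : ZMod p) ^ i)‖ ≤
        (p : ℝ) ^ (-δ) * (A.card * N) := by
  obtain ⟨δ₁, hδ₁, h⟩ := avg (ε / 2) (by positivity)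
  obtain ⟨δ, hδ⟩ : ∃ δ : ℝ, δ = min δ₁ (ε / 4) / 2 := ⟨_, rfl⟩
  have hδ0 : 0 < δ := by
    rw [hδ]
    have := lt_min hδ₁ (by positivity : (0 : ℝ) < ε / 4)
    linarith
  have hδa : 2 * δ ≤ δ₁ := by rw [hδ]; have := min_le_left δ₁ (ε / 4); linarith
  have hδb : 2 * δ ≤ ε / 4 := by rw [hδ]; have := min_le_right δ₁ (ε / 4); linarith
  refine ⟨δ, hδ0, fun K hK => ?_⟩
  obtain ⟨p₁, hp₁⟩ := h K hK
  obtain ⟨p₂, -, hp₂⟩ := exists_large 3 δ hδ0
  obtain ⟨p₃, -, hp₃⟩ := exists_large 2 (ε / 4) (by positivity)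
  refine ⟨max p₁ (max p₂ p₃), fun p _ hp χ hχ g c N m A hc hN hm hNε hA => ?_⟩
  have hpa : p₁ ≤ p := (le_max_left _ _).trans hp
  have hpb : p₂ ≤ p := ((le_max_left _ _).trans (le_max_right _ _)).trans hp
  have hpc : p₃ ≤ p := ((le_max_right _ _).trans (le_max_right _ _)).trans hp
  have hpp : p.Prime := Fact.out
  have hp0 : (0 : ℝ) < p := by exact_mod_cast hpp.pos
  have hp1 : (1 : ℝ) ≤ p := by exact_mod_cast hpp.one_le
  have h3 := hp₂ p hpb
  have h2' := hp₃ p hpc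
  -- the length of the averaging
  obtain ⟨M, hM⟩ : ∃ M : ℕ, M = ⌊(N : ℝ) * (p : ℝ) ^ (-(ε / 4))⌋₊ := ⟨_, rfl⟩
  have hMle : (M : ℝ) ≤ (N : ℝ) * (p : ℝ) ^ (-(ε / 4)) := by
    rw [hM]
    exact Nat.floor_le (by positivity)
  have hx2 : 2 ≤ (N : ℝ) * (p : ℝ) ^ (-(ε / 4)) := by
    have h5 : (p : ℝ) ^ (3 * ε / 4) ≤ (N : ℝ) * (p : ℝ) ^ (-(ε / 4)) := by
      have : (p : ℝ) ^ (3 * ε / 4) = (p : ℝ) ^ ε * (p : ℝ) ^ (-(ε / 4)) := by
        rw [← Real.rpow_add hp0]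
        congr 1
        ring
      rw [this]
      exact mul_le_mul_of_nonneg_right hNε (by positivity)
    have h6 : (p : ℝ) ^ (ε / 4) ≤ (p : ℝ) ^ (3 * ε / 4) :=
      Real.rpow_le_rpow_of_exponent_le hp1 (by linarith)
    linarith
  have hMge : (N : ℝ) * (p : ℝ) ^ (-(ε / 4)) ≤ 2 * M := by
    have h5 : (N : ℝ) * (p : ℝ) ^ (-(ε / 4)) < M + 1 := by
      rw [hM]
      exact Nat.lt_floor_add_one _
    linarith
  have hM0 : (0 : ℝ) < M := by linarith
  have hMN : M ≤ N := by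
    have h5 : (p : ℝ) ^ (-(ε / 4)) ≤ 1 := Real.rpow_le_one_of_one_le_of_nonpos hp1 (by linarith)
    have h6 : (M : ℝ) ≤ N := by
      refine hMle.trans ?_
      have : (0 : ℝ) ≤ N := Nat.cast_nonneg _
      nlinarith
    exact_mod_cast h6
  have hginj : ∀ i < N, ∀ j < N, (g : ZMod p) ^ i = (g : ZMod p) ^ j → i = j := by
    intro i hi j hj hij
    have h5 : g ^ i = g ^ j := by
      apply Units.ext
      rw [Units.val_pow_eq_pow_val, Units.val_pow_eq_pow_val]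
      exact hij
    exact pow_injOn_Iio_orderOf (Set.mem_Iio.2 (by omega)) (Set.mem_Iio.2 (by omega)) h5
  set T : Finset (ZMod p) := (range M).image (fun j => (g : ZMod p) ^ j) with hTdef
  have hTinj : Set.InjOn (fun j => (g : ZMod p) ^ j) (range M : Finset ℕ) := by
    intro i hi j hj hij
    rw [mem_coe, mem_range] at hi hj
    exact hginj i (by omega) j (by omega) hij
  have hTcard : T.card = M := by rw [hTdef, card_image_of_injOn hTinj, card_range]
  have hT0 : (0 : ZMod p) ∉ T := by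
    rw [hTdef, mem_image]
    rintro ⟨j, -, hj⟩
    exact pow_ne_zero j g.ne_zero hj
  set B : Finset (ZMod p) := (range N).image (fun i => c * (g : ZMod p) ^ i) with hBdef
  have hBinj : Set.InjOn (fun i => c * (g : ZMod p) ^ i) (range N : Finset ℕ) := by
    intro i hi j hj hij
    rw [mem_coe, mem_range] at hi hj
    exact hginj i hi j hj (mul_left_cancel₀ hc hij)
  have hBcard : B.card = N := by rw [hBdef, card_image_of_injOn hBinj, card_range]
  have hBsum : ∀ f : ZMod p → ℂ, ∑ b ∈ B, f b = ∑ i ∈ range N, f (c * (g : ZMod p) ^ i) :=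
    fun f => by rw [hBdef, sum_image hBinj]
  have hE : energy A T ≤ A.card * T.card * m := by
    refine energy_le _ _ _ fun a ha t ht => ?_
    rw [hTdef, mem_image] at ht
    obtain ⟨j, hj, rfl⟩ := ht
    have hg0 : (g : ZMod p) ^ j ≠ 0 := pow_ne_zero j g.ne_zero
    refine le_trans ?_ (hm (a / (g : ZMod p) ^ j))
    -- (a', g^i) with a g^i = a' g^j
    have hsub : ((A ×ˢ T).filter fun w => a * w.2 = w.1 * (g : ZMod p) ^ j) ⊆
        ((range N).filter fun i => a / (g : ZMod p) ^ j * (g : ZMod p) ^ i ∈ A).image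
          (fun i => (a / (g : ZMod p) ^ j * (g : ZMod p) ^ i, (g : ZMod p) ^ i)) := by
      intro w hw
      rw [mem_filter, mem_product, hTdef, mem_image] at hw
      obtain ⟨⟨hw1, i, hi, hi2⟩, hw3⟩ := hw
      rw [mem_range] at hi
      have e1 : a / (g : ZMod p) ^ j * (g : ZMod p) ^ i = w.1 := by
        rw [hi2, div_mul_eq_mul_div, div_eq_iff hg0]
        exact hw3
      rw [mem_image]
      refine ⟨i, ?_, ?_⟩
      · rw [mem_filter, mem_range]
        exact ⟨by omega, by rw [e1]; exact hw1⟩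
      · exact Prod.ext e1 hi2
    exact (card_le_card hsub).trans card_image_le
  have hE' : (energy A T : ℝ) * (p : ℝ) ^ (1 / 2 + ε / 2) ≤ ((A.card : ℝ) * T.card) ^ 2 := by
    have h1 : (energy A T : ℝ) ≤ (A.card : ℝ) * T.card * m := by exact_mod_cast hE
    have h5 : (m : ℝ) * (p : ℝ) ^ (1 / 2 + ε / 2) ≤ A.card * T.card := by
      rw [hTcard]
      have e1 : (p : ℝ) ^ (1 / 2 + ε) = (p : ℝ) ^ (1 / 2 + ε / 2) * (p : ℝ) ^ (ε / 4) *
          (p : ℝ) ^ (ε / 4) := by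
        rw [← Real.rpow_add hp0, ← Real.rpow_add hp0]
        congr 1
        ring
      have e2 : (N : ℝ) ≤ 2 * M * (p : ℝ) ^ (ε / 4) := by
        have h6 := mul_le_mul_of_nonneg_right hMge (by positivity : (0 : ℝ) ≤ (p : ℝ) ^ (ε / 4))
        have h7 : (N : ℝ) * (p : ℝ) ^ (-(ε / 4)) * (p : ℝ) ^ (ε / 4) = N := by
          rw [mul_assoc, ← Real.rpow_add hp0]
          have : -(ε / 4) + ε / 4 = 0 := by ring
          rw [this, Real.rpow_zero, mul_one]
        rw [h7] at h6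
        exact h6
      have hAc : (0 : ℝ) ≤ A.card := Nat.cast_nonneg _
      have e3 : (m : ℝ) * ((p : ℝ) ^ (1 / 2 + ε / 2) * (p : ℝ) ^ (ε / 4) * (p : ℝ) ^ (ε / 4)) ≤
          A.card * (2 * M * (p : ℝ) ^ (ε / 4)) := by
        rw [← e1]
        exact hA.trans (mul_le_mul_of_nonneg_left e2 hAc)
      have hP : (0 : ℝ) < (p : ℝ) ^ (ε / 4) := by positivity
      have e4 : ((m : ℝ) * (p : ℝ) ^ (1 / 2 + ε / 2)) * (p : ℝ) ^ (ε / 4) ≤
          (A.card * M) * 2 := by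
        have e5 : (((m : ℝ) * (p : ℝ) ^ (1 / 2 + ε / 2)) * (p : ℝ) ^ (ε / 4)) * (p : ℝ) ^ (ε / 4) ≤
            ((A.card * M) * 2) * (p : ℝ) ^ (ε / 4) := by
          calc _ = (m : ℝ) * ((p : ℝ) ^ (1 / 2 + ε / 2) * (p : ℝ) ^ (ε / 4) *
                (p : ℝ) ^ (ε / 4)) := by ring
            _ ≤ _ := e3
            _ = _ := by ring
        exact le_of_mul_le_mul_right e5 hP
      have h8 : (0 : ℝ) ≤ (m : ℝ) * (p : ℝ) ^ (1 / 2 + ε / 2) := by positivity
      nlinarith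
    calc _ ≤ ((A.card : ℝ) * T.card * m) * (p : ℝ) ^ (1 / 2 + ε / 2) :=
          mul_le_mul_of_nonneg_right h1 (by positivity)
      _ = ((A.card : ℝ) * T.card) * (m * (p : ℝ) ^ (1 / 2 + ε / 2)) := by ring
      _ ≤ ((A.card : ℝ) * T.card) * (A.card * T.card) :=
          mul_le_mul_of_nonneg_left h5 (by positivity)
      _ = _ := by ring
  have hB' : (p : ℝ) ^ (ε / 2) ≤ B.card := by
    rw [hBcard]
    exact (Real.rpow_le_rpow_of_exponent_le hp1 (by linarith)).trans hNε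
  have h1 := hp₁ p hpa χ hχ A B T hT0 hB' hE'
  rw [hTdef, sum_image hTinj, ← hTdef, hTcard, hBcard] at h1
  set S : ℂ := ∑ a ∈ A, ∑ i ∈ range N, χ (a + c * (g : ZMod p) ^ i) with hS
  have hshift : ∀ j ∈ range M, ‖S‖ ≤ ‖dsum χ A B ((g : ZMod p) ^ j)‖ + A.card * (2 * M) := by
    intro j hj
    rw [mem_range] at hj
    have e1 : dsum χ A B ((g : ZMod p) ^ j) =
        ∑ a ∈ A, ∑ i ∈ range N, χ (a + (g : ZMod p) ^ j * (c * (g : ZMod p) ^ i)) := by
      unfold dsum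
      exact sum_congr rfl fun a _ => hBsum (fun b => χ (a + (g : ZMod p) ^ j * b))
    have e2 : ‖S - dsum χ A B ((g : ZMod p) ^ j)‖ ≤ A.card * (2 * M) := by
      rw [hS, e1, ← sum_sub_distrib]
      refine (norm_sum_le _ _).trans ?_
      rw [← nsmul_eq_mul]
      refine sum_le_card_nsmul _ _ _ fun a _ => ?_
      refine (gp_shift χ c a (g : ZMod p) N j).trans ?_
      have : (j : ℝ) ≤ M := by exact_mod_cast hj.le
      linarith
    have e3 : ‖S‖ ≤ ‖dsum χ A B ((g : ZMod p) ^ j)‖ + ‖S - dsum χ A B ((g : ZMod p) ^ j)‖ := by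
      have := norm_add_le (dsum χ A B ((g : ZMod p) ^ j)) (S - dsum χ A B ((g : ZMod p) ^ j))
      rwa [add_sub_cancel] at this
    linarith
  have h5 : (M : ℝ) * ‖S‖ ≤ (p : ℝ) ^ (-δ₁) * (A.card * N * M) + M * (A.card * (2 * M)) := by
    calc (M : ℝ) * ‖S‖ = ∑ j ∈ range M, ‖S‖ := by rw [sum_const, card_range, nsmul_eq_mul]
      _ ≤ ∑ j ∈ range M, (‖dsum χ A B ((g : ZMod p) ^ j)‖ + A.card * (2 * M)) :=
          sum_le_sum hshift
      _ = ∑ j ∈ range M, ‖dsum χ A B ((g : ZMod p) ^ j)‖ + M * (A.card * (2 * M)) := by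
          rw [sum_add_distrib, sum_const, card_range, nsmul_eq_mul]
      _ ≤ _ := by linarith
  have hAN : (0 : ℝ) ≤ (A.card : ℝ) * N := by positivity
  have h6 : ‖S‖ ≤ (p : ℝ) ^ (-δ₁) * (A.card * N) + A.card * (2 * M) := by
    have : (M : ℝ) * ‖S‖ ≤ M * ((p : ℝ) ^ (-δ₁) * (A.card * N) + A.card * (2 * M)) := by
      refine h5.trans (le_of_eq ?_)
      ring
    exact le_of_mul_le_mul_left this hM0
  have h7 : (A.card : ℝ) * (2 * M) ≤ 2 * (p : ℝ) ^ (-(2 * δ)) * (A.card * N) := by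
    have h8 : (p : ℝ) ^ (-(ε / 4)) ≤ (p : ℝ) ^ (-(2 * δ)) :=
      Real.rpow_le_rpow_of_exponent_le hp1 (by linarith)
    have hAc : (0 : ℝ) ≤ A.card := Nat.cast_nonneg _
    have hNc : (0 : ℝ) ≤ N := Nat.cast_nonneg _
    have h9 : (M : ℝ) ≤ N * (p : ℝ) ^ (-(2 * δ)) :=
      hMle.trans (mul_le_mul_of_nonneg_left h8 hNc)
    nlinarith [mul_le_mul_of_nonneg_left h9 hAc]
  have h8 : (p : ℝ) ^ (-δ₁) * (A.card * N) ≤ (p : ℝ) ^ (-(2 * δ)) * (A.card * N) :=
    mul_le_mul_of_nonneg_right (Real.rpow_le_rpow_of_exponent_le hp1 (by linarith)) hAN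
  have h9 : 3 * (p : ℝ) ^ (-(2 * δ)) ≤ (p : ℝ) ^ (-δ) := by
    have e1 : (p : ℝ) ^ (-(2 * δ)) = (p : ℝ) ^ (-δ) * (p : ℝ) ^ (-δ) := by
      rw [← Real.rpow_add hp0]
      congr 1
      ring
    have e2 : 3 * (p : ℝ) ^ (-δ) ≤ 1 := by
      rw [Real.rpow_neg hp0.le, mul_inv_le_iff₀ (by positivity), one_mul]
      exact h3
    have e3 : 0 ≤ (p : ℝ) ^ (-δ) := by positivity
    rw [e1]
    nlinarith
  have h10 := mul_le_mul_of_nonneg_right h9 hAN
  linarith

end Pool.Agent.H435R3.Paley
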