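import Pool.Agent.H435R3.Paley.Inv
import Pool.Agent.H435R3.Weil.Main
import Pool.Agent.H471R4.BW.CSL

/-! # All non-trivial characters -/

set_option autoImplicit false

namespace Pool.Agent.H435R3.Paley

open Finset Pool.Agent.H471R4.BW Polynomial Pool.Agent.H435R3.Weil

/-- square root cancellation for every non-trivial character modulo `p`, uniformly -/
theorem good_all (p : ℕ) [Fact p.Prime] (χ : DirichletCharacter ℂ p) (hχ : χ ≠ 1) :
    Good p χ (fun r => 2 * r) := by
  classical
  intro r hr b c hb hc huniq
  have hpp : p.Prime := Fact.out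
  set t := orderOf χ with ht
  have hdvd : t ∣ Fintype.card (ZMod p) - 1 := MulChar.orderOf_dvd_card_sub_one (F := ZMod p) χ
  have ht0 : t ≠ 0 := by
    intro h0
    rw [h0, zero_dvd_iff, ZMod.card] at hdvd
    have := hpp.two_le
    omega
  have ht1 : t ≠ 1 := fun h1 => hχ (orderOf_eq_one_iff.1 h1)
  have ht2 : 2 ≤ t := by omega
  have hχt : χ ^ t = 1 := pow_orderOf_eq_one χ
  set P : (ZMod p)[X] := ∏ i, (X + C (b i : ZMod p)) with hP
  set R : (ZMod p)[X] := ∏ i, (X + C (c i : ZMod p)) with hR
  have hPm : P.Monic := monic_prod_of_monic _ _ fun i _ => monic_X_add_C _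
  have hRm : R.Monic := monic_prod_of_monic _ _ fun i _ => monic_X_add_C _
  have hF0 : P * R ^ (t - 1) ≠ 0 := (hPm.mul (hRm.pow _)).ne_zero
  have hPdeg : P.natDegree = r := by
    rw [hP, natDegree_prod_of_monic _ _ fun i _ => monic_X_add_C _,
      sum_congr rfl (fun i _ => natDegree_X_add_C (b i : ZMod p))]
    simp
  have hRdeg : R.natDegree = r := by
    rw [hR, natDegree_prod_of_monic _ _ fun i _ => monic_X_add_C _,
      sum_congr rfl (fun i _ => natDegree_X_add_C (c i : ZMod p))]
    simp
  have hcop : Cop t (P * R ^ (t - 1)) := by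
    obtain ⟨v, hv⟩ := huniq
    have hvB : v < p := by
      by_contra hcon
      have h1 : (univ.filter fun i => b i = v) = ∅ := by
        refine filter_false_of_mem fun i _ hi => ?_
        have := hb i
        omega
      have h2 : (univ.filter fun i => c i = v) = ∅ := by
        refine filter_false_of_mem fun i _ hi => ?_
        have := hc i
        omega
      rw [h1, h2] at hv
      simp at hv
    refine ⟨-(v : ZMod p), ?_⟩
    have e2 : rootMultiplicity (-(v : ZMod p)) (P * R ^ (t - 1)) =
        (univ.filter fun i => b i = v).card + (t - 1) * (univ.filter fun i => c i = v).card := by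
      rw [rootMultiplicity_mul hF0, csl_rm_pow R _ hRm.ne_zero, hP, hR,
        csl_rm_prod _ _ _ (fun i _ => (monic_X_add_C _).ne_zero),
        csl_rm_prod _ _ _ (fun i _ => (monic_X_add_C _).ne_zero),
        csl_count le_rfl b hb v hvB, csl_count le_rfl c hc v hvB]
    rw [e2]
    rcases Nat.eq_zero_or_pos (univ.filter fun i => b i = v).card with h0 | h0
    · have h1 : (univ.filter fun i => c i = v).card = 1 := by omega
      rw [h0, h1, zero_add, mul_one]
      have h2 : t = (t - 1) + 1 := by omega
      have h3 : Nat.Coprime (t - 1) ((t - 1) + 1) := by simp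
      rwa [← h2] at h3
    · have h1 : (univ.filter fun i => c i = v).card = 0 := by omega
      have h2 : (univ.filter fun i => b i = v).card = 1 := by omega
      rw [h1, h2, mul_zero, add_zero]
      exact Nat.coprime_one_left t
  have hw := weil t ht2 hdvd χ hχ hχt P R hPm hRm hcop
  rw [hPdeg, hRdeg, ZMod.card] at hw
  have e1 : ∀ x : ZMod p, χ (P.eval x) * (starRingEnd ℂ) (χ (R.eval x)) =
      (∏ i, χ (x + (b i : ZMod p))) * ∏ i, (starRingEnd ℂ) (χ (x + (c i : ZMod p))) := by
    intro x
    rw [hP, hR, eval_prod, eval_prod, map_prod, map_prod, map_prod]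
    simp
  rw [sum_congr rfl fun x _ => e1 x] at hw
  refine hw.trans (le_of_eq ?_)
  push_cast
  ring

end Pool.Agent.H435R3.Paley
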