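import Pool.Agent.H435R3.Paley.Core

/-! # Power savings: averages over dilations, invariant sets, geometric progressions -/

set_option autoImplicit false

namespace Pool.Agent.H435R3.Paley

open Finset Pool.Agent.H471R4.BW

/-- square root cancellation in all complete sums of products of shifts -/
def Good (p : ℕ) [NeZero p] (χ : DirichletCharacter ℂ p) (K : ℕ → ℝ) : Prop :=
  ∀ r : ℕ, 1 ≤ r → Complete p χ r p (K r)

theorem exists_large (c η : ℝ) (hη : 0 < η) : ∃ p₀ : ℕ, 2 ≤ p₀ ∧ ∀ p : ℕ, p₀ ≤ p →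
    c ≤ (p : ℝ) ^ η := by
  have h := (tendsto_rpow_atTop hη).comp (tendsto_natCast_atTop_atTop (R := ℝ))
  have h2 := (h.eventually_ge_atTop c)
  rw [Filter.eventually_atTop] at h2
  obtain ⟨a, ha⟩ := h2
  exact ⟨max a 2, le_max_right _ _, fun p hp => ha p ((le_max_left _ _).trans hp)⟩

/-- the averaged bound -/
theorem avg (ε : ℝ) (hε : 0 < ε) : ∃ δ : ℝ, 0 < δ ∧ ∀ K : ℕ → ℝ, (∀ r, 0 ≤ K r) →
    ∃ p₀ : ℕ, ∀ (p : ℕ) [Fact p.Prime], p₀ ≤ p → ∀ χ : DirichletCharacter ℂ p, Good p χ K →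
    ∀ A B T : Finset (ZMod p), (0 : ZMod p) ∉ T → (p : ℝ) ^ ε ≤ B.card →
      (energy A T : ℝ) * (p : ℝ) ^ (1 / 2 + ε) ≤ ((A.card : ℝ) * T.card) ^ 2 →
      ∑ t ∈ T, ‖dsum χ A B t‖ ≤ (p : ℝ) ^ (-δ) * (A.card * B.card * T.card) := by
  obtain ⟨r, hr⟩ : ∃ r : ℕ, r = ⌈1 / ε⌉₊ + 1 := ⟨_, rfl⟩
  have hr1 : 1 ≤ r := by omega
  have hrε : 1 ≤ ε * r := by
    have h1 : 1 / ε ≤ (⌈1 / ε⌉₊ : ℝ) := Nat.le_ceil _
    have h2 : (r : ℝ) = (⌈1 / ε⌉₊ : ℝ) + 1 := by rw [hr]; push_cast; ring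
    rw [h2]
    have h3 : 1 = ε * (1 / ε) := by field_simp
    nlinarith
  have hr0 : (0 : ℝ) < r := by exact_mod_cast hr1
  refine ⟨ε / (4 * r), by positivity, fun K hK => ?_⟩
  obtain ⟨p₀, hp₀2, hp₀⟩ := exists_large ((r : ℝ) ^ (2 * r) + K r) (ε / 2) (by positivity)
  refine ⟨p₀, fun p _ hp χ hχ A B T hT hB hE => ?_⟩
  have hpp : p.Prime := Fact.out
  have hp0 : (0 : ℝ) < p := by exact_mod_cast hpp.pos
  have hp1 : (1 : ℝ) ≤ p := by exact_mod_cast hpp.one_le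
  have hc := core χ r hr1 A B T hT
  have hm := momF χ r (K r) hr1 (hK r) B (hχ r hr1)
  have hBr : Real.sqrt p ≤ (B.card : ℝ) ^ r := by
    calc Real.sqrt p ≤ (p : ℝ) := by
          rw [Real.sqrt_le_left hp0.le]
          nlinarith
      _ = (p : ℝ) ^ (1 : ℝ) := (Real.rpow_one _).symm
      _ ≤ (p : ℝ) ^ (ε * r) := Real.rpow_le_rpow_of_exponent_le hp1 hrε
      _ = ((p : ℝ) ^ ε) ^ r := by rw [Real.rpow_mul hp0.le, Real.rpow_natCast]
      _ ≤ (B.card : ℝ) ^ r := pow_le_pow_left₀ (by positivity) hB r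
  have hss : Real.sqrt p * Real.sqrt p = p := Real.mul_self_sqrt hp0.le
  have hs0 : 0 ≤ Real.sqrt p := Real.sqrt_nonneg _
  have hm2 : ∑ x : ZMod p, ‖∑ b ∈ B, χ (x + b)‖ ^ (2 * r) ≤
      ((r : ℝ) ^ (2 * r) + K r) * ((B.card : ℝ) ^ (2 * r) * Real.sqrt p) := by
    refine hm.trans ?_
    have h1 : (r : ℝ) ^ (2 * r) * (B.card : ℝ) ^ r * p ≤
        (r : ℝ) ^ (2 * r) * ((B.card : ℝ) ^ (2 * r) * Real.sqrt p) := by
      rw [mul_assoc]
      refine mul_le_mul_of_nonneg_left ?_ (by positivity)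
      calc (B.card : ℝ) ^ r * p = (B.card : ℝ) ^ r * (Real.sqrt p * Real.sqrt p) := by rw [hss]
        _ ≤ (B.card : ℝ) ^ r * ((B.card : ℝ) ^ r * Real.sqrt p) := by
            refine mul_le_mul_of_nonneg_left ?_ (by positivity)
            exact mul_le_mul_of_nonneg_right hBr hs0
        _ = (B.card : ℝ) ^ (2 * r) * Real.sqrt p := by ring
    calc _ ≤ (r : ℝ) ^ (2 * r) * ((B.card : ℝ) ^ (2 * r) * Real.sqrt p) +
          K r * (B.card : ℝ) ^ (2 * r) * Real.sqrt p := by linarith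
      _ = _ := by ring
  have hK2 : (r : ℝ) ^ (2 * r) + K r ≤ (p : ℝ) ^ (ε / 2) := hp₀ p hp
  have hsq : Real.sqrt p = (p : ℝ) ^ (1 / 2 : ℝ) := Real.sqrt_eq_rpow _
  -- put together
  have hW0 : (0 : ℝ) ≤ (A.card : ℝ) * T.card := by positivity
  have hE' : (energy A T : ℝ) * Real.sqrt p ≤ ((A.card : ℝ) * T.card) ^ 2 * (p : ℝ) ^ (-ε) := by
    have h1 : (p : ℝ) ^ (1 / 2 + ε) = Real.sqrt p * (p : ℝ) ^ ε := by
      rw [hsq, Real.rpow_add hp0]
    rw [h1] at hE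
    rw [Real.rpow_neg hp0.le]
    rw [← div_eq_mul_inv, le_div_iff₀ (by positivity)]
    calc _ = (energy A T : ℝ) * (Real.sqrt p * (p : ℝ) ^ ε) := by ring
      _ ≤ _ := hE
  have hfin : (∑ t ∈ T, ‖dsum χ A B t‖) ^ (2 * r) ≤
      ((p : ℝ) ^ (-(ε / (4 * r))) * (A.card * B.card * T.card)) ^ (2 * r) := by
    have e1 : ((p : ℝ) ^ (-(ε / (4 * r)))) ^ (2 * r) = (p : ℝ) ^ (-(ε / 2)) := by
      rw [← Real.rpow_natCast, ← Real.rpow_mul hp0.le]
      congr 1
      push_cast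
      field_simp
      ring
    rw [mul_pow, e1]
    calc (∑ t ∈ T, ‖dsum χ A B t‖) ^ (2 * r)
        ≤ ((A.card : ℝ) * T.card) ^ (2 * r - 2) * energy A T *
          (((r : ℝ) ^ (2 * r) + K r) * ((B.card : ℝ) ^ (2 * r) * Real.sqrt p)) :=
          hc.trans (mul_le_mul_of_nonneg_left hm2 (by positivity))
      _ = ((A.card : ℝ) * T.card) ^ (2 * r - 2) * (energy A T * Real.sqrt p) *
          (((r : ℝ) ^ (2 * r) + K r) * (B.card : ℝ) ^ (2 * r)) := by ring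
      _ ≤ ((A.card : ℝ) * T.card) ^ (2 * r - 2) *
          (((A.card : ℝ) * T.card) ^ 2 * (p : ℝ) ^ (-ε)) *
          ((p : ℝ) ^ (ε / 2) * (B.card : ℝ) ^ (2 * r)) := by
          refine mul_le_mul ?_ ?_ ?_ (by positivity)
          · exact mul_le_mul_of_nonneg_left hE' (by positivity)
          · exact mul_le_mul_of_nonneg_right hK2 (by positivity)
          · have := hK r
            positivity
      _ = (((A.card : ℝ) * T.card) ^ (2 * r - 2) * ((A.card : ℝ) * T.card) ^ 2) *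
          ((p : ℝ) ^ (-ε) * (p : ℝ) ^ (ε / 2)) * (B.card : ℝ) ^ (2 * r) := by ring
      _ = (p : ℝ) ^ (-(ε / 2)) * ((A.card : ℝ) * B.card * T.card) ^ (2 * r) := by
          rw [← pow_add, ← Real.rpow_add hp0]
          have e2 : 2 * r - 2 + 2 = 2 * r := by omega
          have e3 : -ε + ε / 2 = -(ε / 2) := by ring
          rw [e2, e3]
          ring
  exact (pow_le_pow_iff_left₀ (sum_nonneg fun _ _ => norm_nonneg _) (by positivity)
    (by omega : 2 * r ≠ 0)).1 hfin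

theorem inner_norm_le {p : ℕ} [Fact p.Prime] (χ : DirichletCharacter ℂ p) (B : Finset (ZMod p))
    (f : ZMod p → ZMod p) : ‖∑ b ∈ B, χ (f b)‖ ≤ B.card := by
  refine (norm_sum_le _ _).trans ?_
  calc ∑ b ∈ B, ‖χ (f b)‖ ≤ ∑ _b ∈ B, (1 : ℝ) := sum_le_sum fun b _ => χ.norm_le_one _
    _ = B.card := by simp

theorem dsum_erase {p : ℕ} [Fact p.Prime] (χ : DirichletCharacter ℂ p) (A B : Finset (ZMod p))
    (t : ZMod p) : ‖dsum χ A B t‖ ≤ ‖dsum χ (A.erase 0) B t‖ + B.card := by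
  unfold dsum
  by_cases h0 : (0 : ZMod p) ∈ A
  · rw [← add_sum_erase A _ h0]
    refine (norm_add_le _ _).trans ?_
    rw [add_comm]
    have := inner_norm_le χ B (fun b => 0 + t * b)
    linarith
  · rw [erase_eq_of_notMem h0]
    have : (0 : ℝ) ≤ B.card := Nat.cast_nonneg _
    linarith

theorem energy_le {p : ℕ} [Fact p.Prime] (A T : Finset (ZMod p)) (m : ℕ)
    (h : ∀ a ∈ A, ∀ t ∈ T, ((A ×ˢ T).filter fun w => a * w.2 = w.1 * t).card ≤ m) :
    energy A T ≤ A.card * T.card * m := by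
  unfold energy
  rw [← card_product, ← smul_eq_mul, Finset.card_eq_sum_card_fiberwise
    (f := fun w : (ZMod p × ZMod p) × (ZMod p × ZMod p) => w.1) (t := A ×ˢ T)
    (fun w hw => by
      have := mem_coe.1 hw
      rw [mem_filter, mem_product] at this
      exact this.1.1)]
  refine Finset.sum_le_card_nsmul _ _ _ fun x hx => ?_
  rw [mem_product] at hx
  refine le_trans ?_ (h x.1 hx.1 x.2 hx.2)
  refine Finset.card_le_card_of_injOn (fun w => w.2) ?_ ?_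
  · intro w hw
    rw [mem_coe, mem_filter, mem_filter, mem_product] at hw
    rw [mem_coe, mem_filter]
    refine ⟨hw.1.1.2, ?_⟩
    rw [← hw.2]
    exact hw.1.2
  · intro w hw w' hw' h2
    rw [mem_coe, mem_filter] at hw hw'
    exact Prod.ext (hw.2.trans hw'.2.symm) h2

open Classical in
/-- almost all dilations -/
theorem dilations (ε : ℝ) (hε : 0 < ε) : ∃ δ : ℝ, 0 < δ ∧ ∀ K : ℕ → ℝ, (∀ r, 0 ≤ K r) →
    ∃ p₀ : ℕ, ∀ (p : ℕ) [Fact p.Prime], p₀ ≤ p → ∀ χ : DirichletCharacter ℂ p, Good p χ K →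
    ∀ A B : Finset (ZMod p), (p : ℝ) ^ ε ≤ A.card → (p : ℝ) ^ ε ≤ B.card →
      ((univ.filter fun t : ZMod p => t ≠ 0 ∧
        (p : ℝ) ^ (-δ) * (A.card * B.card) < ‖dsum χ A B t‖).card : ℝ) ≤ (p : ℝ) ^ (1 / 2 + ε) := by
  obtain ⟨δ₁, hδ₁, h⟩ := avg ε hε
  obtain ⟨δ, hδ⟩ : ∃ δ : ℝ, δ = min δ₁ ε / 2 := ⟨_, rfl⟩
  have hδ0 : 0 < δ := by rw [hδ]; have := lt_min hδ₁ hε; linarith
  have hδa : 2 * δ ≤ δ₁ := by rw [hδ]; have := min_le_left δ₁ ε; linarith
  have hδb : 2 * δ ≤ ε := by rw [hδ]; have := min_le_right δ₁ ε; linarith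
  refine ⟨δ, hδ0, fun K hK => ?_⟩
  obtain ⟨p₁, hp₁⟩ := h K hK
  obtain ⟨p₂, -, hp₂⟩ := exists_large 2 δ hδ0
  refine ⟨max p₁ p₂, fun p _ hp χ hχ A B hA hB => ?_⟩
  have hpp : p.Prime := Fact.out
  have hp0 : (0 : ℝ) < p := by exact_mod_cast hpp.pos
  have hp1 : (1 : ℝ) ≤ p := by exact_mod_cast hpp.one_le
  by_contra hcon
  push Not at hcon
  set T := univ.filter fun t : ZMod p => t ≠ 0 ∧
        (p : ℝ) ^ (-δ) * (A.card * B.card) < ‖dsum χ A B t‖ with hTdef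
  have hT0 : (0 : ZMod p) ∉ T := by
    intro h0
    exact (mem_filter.1 h0).2.1 rfl
  have hTpos : (0 : ℝ) < T.card := lt_of_le_of_lt (by positivity) hcon
  have hE : energy (A.erase 0) T ≤ (A.erase 0).card * T.card * (A.erase 0).card := by
    refine energy_le _ _ _ fun a ha t ht => ?_
    refine Finset.card_le_card_of_injOn (fun w => w.1) ?_ ?_
    · intro w hw
      rw [mem_coe, mem_filter, mem_product] at hw
      exact hw.1.1
    · intro w hw w' hw' h1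
      rw [mem_coe, mem_filter] at hw hw'
      have ha0 : a ≠ 0 := ne_of_mem_erase ha
      refine Prod.ext h1 ?_
      have h2 : a * w.2 = a * w'.2 := by
        rw [hw.2, hw'.2]
        have : w.1 = w'.1 := h1
        rw [this]
      exact mul_left_cancel₀ ha0 h2
  have hE' : (energy (A.erase 0) T : ℝ) * (p : ℝ) ^ (1 / 2 + ε) ≤
      (((A.erase 0).card : ℝ) * T.card) ^ 2 := by
    have h1 : (energy (A.erase 0) T : ℝ) ≤
        ((A.erase 0).card : ℝ) * T.card * (A.erase 0).card := by exact_mod_cast hE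
    calc _ ≤ (((A.erase 0).card : ℝ) * T.card * (A.erase 0).card) * T.card :=
          mul_le_mul h1 hcon.le (by positivity) (by positivity)
      _ = _ := by ring
  have h1 := hp₁ p ((le_max_left _ _).trans hp) χ hχ (A.erase 0) B T hT0 hB hE'
  have h2 : (p : ℝ) ^ (-δ) * (A.card * B.card) * T.card <
      ∑ t ∈ T, ‖dsum χ A B t‖ := by
    have hne : T.Nonempty := by
      rw [← card_pos]
      exact_mod_cast hTpos
    have h3 := Finset.sum_lt_sum_of_nonempty hne (f := fun _ => (p : ℝ) ^ (-δ) * (A.card * B.card))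
      (g := fun t => ‖dsum χ A B t‖) (fun t ht => (mem_filter.1 ht).2.2)
    rw [sum_const, nsmul_eq_mul, mul_comm] at h3
    exact h3
  have h3 : ∑ t ∈ T, ‖dsum χ A B t‖ ≤ ∑ t ∈ T, ‖dsum χ (A.erase 0) B t‖ + T.card * B.card := by
    calc _ ≤ ∑ t ∈ T, (‖dsum χ (A.erase 0) B t‖ + B.card) :=
          sum_le_sum fun t _ => dsum_erase χ A B t
      _ = _ := by rw [sum_add_distrib, sum_const, nsmul_eq_mul]
  have hAe : ((A.erase 0).card : ℝ) ≤ A.card := by exact_mod_cast card_le_card (erase_subset _ _)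
  have hA1 : (1 : ℝ) ≤ (p : ℝ) ^ (-ε) * A.card := by
    rw [Real.rpow_neg hp0.le, inv_mul_eq_div, le_div_iff₀ (by positivity), one_mul]
    exact hA
  have h4 : ∑ t ∈ T, ‖dsum χ (A.erase 0) B t‖ ≤
      (p : ℝ) ^ (-(2 * δ)) * (A.card * B.card * T.card) := by
    refine h1.trans ?_
    refine mul_le_mul ?_ ?_ (by positivity) (by positivity)
    · exact Real.rpow_le_rpow_of_exponent_le hp1 (by linarith)
    · refine mul_le_mul_of_nonneg_right (mul_le_mul_of_nonneg_right hAe ?_) ?_ <;> positivity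
  have h5 : (T.card : ℝ) * B.card ≤ (p : ℝ) ^ (-(2 * δ)) * (A.card * B.card * T.card) := by
    have h6 : (p : ℝ) ^ (-ε) ≤ (p : ℝ) ^ (-(2 * δ)) :=
      Real.rpow_le_rpow_of_exponent_le hp1 (by linarith)
    calc (T.card : ℝ) * B.card = 1 * (T.card * B.card) := by ring
      _ ≤ ((p : ℝ) ^ (-ε) * A.card) * (T.card * B.card) :=
          mul_le_mul_of_nonneg_right hA1 (by positivity)
      _ ≤ ((p : ℝ) ^ (-(2 * δ)) * A.card) * (T.card * B.card) := by
          refine mul_le_mul_of_nonneg_right (mul_le_mul_of_nonneg_right h6 ?_) ?_ <;> positivity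
      _ = _ := by ring
  have h7 : 2 * (p : ℝ) ^ (-(2 * δ)) ≤ (p : ℝ) ^ (-δ) := by
    have h8 : (p : ℝ) ^ (-(2 * δ)) = (p : ℝ) ^ (-δ) * (p : ℝ) ^ (-δ) := by
      rw [← Real.rpow_add hp0]
      congr 1
      ring
    have h9 : 2 * (p : ℝ) ^ (-δ) ≤ 1 := by
      rw [Real.rpow_neg hp0.le, mul_inv_le_iff₀ (by positivity), one_mul]
      exact hp₂ p ((le_max_right _ _).trans hp)
    have h10 : 0 ≤ (p : ℝ) ^ (-δ) := by positivity
    rw [h8]
    nlinarith
  have h11 : 2 * (p : ℝ) ^ (-(2 * δ)) * (A.card * B.card * T.card) ≤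
      (p : ℝ) ^ (-δ) * (A.card * B.card * T.card) :=
    mul_le_mul_of_nonneg_right h7 (by positivity)
  linarith

end Pool.Agent.H435R3.Paley
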