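import Pool.Agent.H435R3.Paley.Mom

/-! # Averages over dilations of double character sums -/

set_option autoImplicit false

namespace Pool.Agent.H435R3.Paley

open Finset Pool.Agent.H471R4.BW

variable {p : ℕ} [Fact p.Prime] (χ : DirichletCharacter ℂ p)

/-- the double sum of `χ (a + t b)` over `a ∈ A`, `b ∈ B` -/
noncomputable def dsum (A B : Finset (ZMod p)) (t : ZMod p) : ℂ :=
  ∑ a ∈ A, ∑ b ∈ B, χ (a + t * b)

/-- the number of `(a, t), (a', t')` in `A × T` with `a t' = a' t` -/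
def energy (A T : Finset (ZMod p)) : ℕ :=
  (((A ×ˢ T) ×ˢ (A ×ˢ T)).filter fun w => w.1.1 * w.2.2 = w.2.1 * w.1.2).card

/-- number of representations `x = a / t` -/
def nuq (A T : Finset (ZMod p)) (x : ZMod p) : ℕ :=
  ((A ×ˢ T).filter fun w => w.1 / w.2 = x).card

theorem nuq_sum (A T : Finset (ZMod p)) : ∑ x : ZMod p, nuq A T x = A.card * T.card := by
  unfold nuq
  rw [← Finset.card_eq_sum_card_fiberwise (f := fun w : ZMod p × ZMod p => w.1 / w.2)
    (t := (univ : Finset (ZMod p))) (fun _ _ => mem_univ _), card_product]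

theorem nuq_sq (A T : Finset (ZMod p)) (hT : (0 : ZMod p) ∉ T) :
    ∑ x : ZMod p, nuq A T x ^ 2 = energy A T := by
  unfold energy
  rw [Finset.card_eq_sum_card_fiberwise
    (f := fun w : (ZMod p × ZMod p) × (ZMod p × ZMod p) => w.1.1 / w.1.2)
    (t := (univ : Finset (ZMod p))) (fun _ _ => mem_univ _)]
  refine sum_congr rfl fun x _ => ?_
  unfold nuq
  rw [sq, ← card_product]
  congr 1
  ext w
  simp only [mem_product, mem_filter]
  constructor
  · rintro ⟨⟨h1, h2⟩, h3, h4⟩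
    have ht1 : w.1.2 ≠ 0 := fun h => hT (h ▸ h1.2)
    have ht2 : w.2.2 ≠ 0 := fun h => hT (h ▸ h3.2)
    refine ⟨⟨⟨h1, h3⟩, ?_⟩, h2⟩
    rw [← h4] at h2
    exact (div_eq_div_iff ht1 ht2).1 h2
  · rintro ⟨⟨⟨h1, h3⟩, h5⟩, h2⟩
    have ht1 : w.1.2 ≠ 0 := fun h => hT (h ▸ h1.2)
    have ht2 : w.2.2 ≠ 0 := fun h => hT (h ▸ h3.2)
    refine ⟨⟨h1, h2⟩, h3, ?_⟩
    rw [← h2]
    exact ((div_eq_div_iff ht1 ht2).2 h5).symm

theorem norm_unit {t : ZMod p} (ht : t ≠ 0) : ‖χ t‖ = 1 := by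
  have hu : IsUnit t := isUnit_iff_ne_zero.2 ht
  have h1 : χ t ^ (Fintype.card (ZMod p) - 1) = 1 := by
    rw [← map_pow, ZMod.card]
    rw [ZMod.pow_card_sub_one_eq_one ht, map_one]
  have hp := (Fact.out : p.Prime).two_le
  rw [ZMod.card] at h1
  exact Complex.norm_eq_one_of_pow_eq_one h1 (by omega)

theorem dsum_norm_le (A B : Finset (ZMod p)) {t : ZMod p} (ht : t ≠ 0) :
    ‖dsum χ A B t‖ ≤ ∑ a ∈ A, ‖∑ b ∈ B, χ (a / t + b)‖ := by
  have e : dsum χ A B t = ∑ a ∈ A, χ t * ∑ b ∈ B, χ (a / t + b) := by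
    unfold dsum
    refine sum_congr rfl fun a _ => ?_
    rw [mul_sum]
    refine sum_congr rfl fun b _ => ?_
    rw [← map_mul]
    congr 1
    field_simp
  rw [e]
  refine (norm_sum_le _ _).trans (sum_le_sum fun a _ => ?_)
  rw [norm_mul, norm_unit χ ht, one_mul]

theorem sum_dsum_le (A B T : Finset (ZMod p)) (hT : (0 : ZMod p) ∉ T) :
    ∑ t ∈ T, ‖dsum χ A B t‖ ≤ ∑ x : ZMod p, (nuq A T x : ℝ) * ‖∑ b ∈ B, χ (x + b)‖ := by
  have h1 : ∑ t ∈ T, ‖dsum χ A B t‖ ≤ ∑ t ∈ T, ∑ a ∈ A, ‖∑ b ∈ B, χ (a / t + b)‖ :=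
    sum_le_sum fun t ht => dsum_norm_le χ A B fun h => hT (h ▸ ht)
  refine h1.trans (le_of_eq ?_)
  rw [sum_comm, ← sum_product']
  rw [← sum_fiberwise_of_maps_to (s := A ×ˢ T) (t := (univ : Finset (ZMod p)))
    (g := fun w : ZMod p × ZMod p => w.1 / w.2) (fun _ _ => mem_univ _)]
  refine sum_congr rfl fun x _ => ?_
  unfold nuq
  rw [← nsmul_eq_mul, ← sum_const]
  refine sum_congr rfl fun w hw => ?_
  rw [(mem_filter.1 hw).2]

/-- the basic inequality -/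
theorem core (r : ℕ) (hr : 1 ≤ r) (A B T : Finset (ZMod p)) (hT : (0 : ZMod p) ∉ T) :
    (∑ t ∈ T, ‖dsum χ A B t‖) ^ (2 * r) ≤
      ((A.card : ℝ) * T.card) ^ (2 * r - 2) * energy A T *
        ∑ x : ZMod p, ‖∑ b ∈ B, χ (x + b)‖ ^ (2 * r) := by
  have h1 := sum_dsum_le χ A B T hT
  have h2 := hol (ZMod p) r hr (fun x => (nuq A T x : ℝ)) (fun x => ‖∑ b ∈ B, χ (x + b)‖)
    (fun x => Nat.cast_nonneg _) (fun x => norm_nonneg _)
  have h3 : (∑ x : ZMod p, (nuq A T x : ℝ)) = (A.card : ℝ) * T.card := by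
    exact_mod_cast nuq_sum A T
  have h4 : (∑ x : ZMod p, (nuq A T x : ℝ) ^ 2) = energy A T := by
    exact_mod_cast nuq_sq A T hT
  rw [h3, h4] at h2
  refine le_trans ?_ h2
  exact pow_le_pow_left₀ (sum_nonneg fun t _ => norm_nonneg _) h1 _

/-- the second moment of the shifted sums -/
theorem second (hχ : χ ≠ 1) (B : Finset (ZMod p)) :
    ∑ x : ZMod p, ‖∑ b ∈ B, χ (x + b)‖ ^ 2 ≤ p * B.card := by
  classical
  -- correlations
  have hcorr : ∀ b ∈ B, ∀ c ∈ B, b ≠ c →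
      ∑ x : ZMod p, χ (x + b) * (starRingEnd ℂ) (χ (x + c)) = -1 := by
    intro b _ c _ hbc
    have hinv : ∀ y : ZMod p, (starRingEnd ℂ) (χ y) = χ⁻¹ y := by
      intro y
      by_cases hy : y = 0
      · rw [hy]
        have h0 : χ 0 = 0 := MulChar.map_zero χ
        have h0' : χ⁻¹ 0 = 0 := MulChar.map_zero χ⁻¹
        rw [h0, h0', map_zero]
      · rw [← Complex.inv_eq_conj (norm_unit χ hy), MulChar.inv_apply_eq_inv']
    have h1 : ∑ x : ZMod p, χ (x + b) * (starRingEnd ℂ) (χ (x + c)) =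
        ∑ y : ZMod p, χ (y + (b - c)) * χ⁻¹ y := by
      refine Fintype.sum_equiv (Equiv.addRight c) _ _ fun x => ?_
      simp only [Equiv.coe_addRight]
      rw [hinv]
      congr 2
      ring
    rw [h1]
    have hd : b - c ≠ 0 := sub_ne_zero.2 hbc
    have h2 : ∀ y : ZMod p, χ (y + (b - c)) * χ⁻¹ y =
        if y = 0 then 0 else χ (1 + (b - c) * y⁻¹) := by
      intro y
      split_ifs with hy
      · rw [hy]
        have h0' : χ⁻¹ 0 = 0 := MulChar.map_zero χ⁻¹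
        rw [h0', mul_zero]
      · rw [MulChar.inv_apply_eq_inv', ← MulChar.inv_apply_eq_inv', MulChar.inv_apply' χ y,
          ← map_mul]
        congr 1
        field_simp
    rw [sum_congr rfl fun y _ => h2 y]
    have h3 : ∑ y : ZMod p, (if y = 0 then (0 : ℂ) else χ (1 + (b - c) * y⁻¹)) =
        (∑ y : ZMod p, χ (1 + (b - c) * y⁻¹)) - χ 1 := by
      rw [← Finset.add_sum_erase univ (fun y : ZMod p => χ (1 + (b - c) * y⁻¹)) (mem_univ 0),
        ← Finset.add_sum_erase univ _ (mem_univ (0 : ZMod p))]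
      rw [if_pos rfl, zero_add, inv_zero, mul_zero, add_zero, add_sub_cancel_left]
      refine sum_congr rfl fun y hy => ?_
      rw [if_neg (ne_of_mem_erase hy)]
    rw [h3, map_one]
    have h4 : ∑ y : ZMod p, χ (1 + (b - c) * y⁻¹) = ∑ z : ZMod p, χ z := by
      let e : ZMod p ≃ ZMod p :=
        ((Equiv.inv (ZMod p)).trans (Equiv.mulLeft₀ (b - c) hd)).trans (Equiv.addLeft 1)
      refine Fintype.sum_equiv e _ _ fun y => ?_
      rfl
    rw [h4, MulChar.sum_eq_zero_of_ne_one hχ, zero_sub]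
  have hdiag : ∀ b : ZMod p,
      ‖∑ x : ZMod p, χ (x + b) * (starRingEnd ℂ) (χ (x + b))‖ ≤ p := by
    intro b
    refine (norm_sum_le _ _).trans ?_
    calc ∑ x : ZMod p, ‖χ (x + b) * (starRingEnd ℂ) (χ (x + b))‖ ≤ ∑ _x : ZMod p, (1 : ℝ) := by
          refine sum_le_sum fun x _ => ?_
          rw [norm_mul, RCLike.norm_conj]
          exact mul_le_one₀ (χ.norm_le_one _) (norm_nonneg _) (χ.norm_le_one _)
      _ = p := by simp
  have hexp : ((∑ x : ZMod p, ‖∑ b ∈ B, χ (x + b)‖ ^ 2 : ℝ) : ℂ) =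
      ∑ b ∈ B, ∑ c ∈ B, ∑ x : ZMod p, χ (x + b) * (starRingEnd ℂ) (χ (x + c)) := by
    push_cast
    have h1 : ∀ x : ZMod p, ((‖∑ b ∈ B, χ (x + b)‖ : ℂ)) ^ 2 =
        ∑ b ∈ B, ∑ c ∈ B, χ (x + b) * (starRingEnd ℂ) (χ (x + c)) := by
      intro x
      rw [← Complex.mul_conj', map_sum, sum_mul_sum]
    rw [sum_congr rfl fun x _ => h1 x, sum_comm]
    refine sum_congr rfl fun b _ => ?_
    rw [sum_comm]
  have hre : (∑ x : ZMod p, ‖∑ b ∈ B, χ (x + b)‖ ^ 2 : ℝ) =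
      ∑ b ∈ B, ∑ c ∈ B, (∑ x : ZMod p, χ (x + b) * (starRingEnd ℂ) (χ (x + c))).re := by
    have := congrArg Complex.re hexp
    rw [Complex.ofReal_re] at this
    rw [this]
    simp only [Complex.re_sum]
  rw [hre]
  calc ∑ b ∈ B, ∑ c ∈ B, (∑ x : ZMod p, χ (x + b) * (starRingEnd ℂ) (χ (x + c))).re
      ≤ ∑ b ∈ B, (p : ℝ) := by
        refine sum_le_sum fun b hb => ?_
        rw [← add_sum_erase B _ hb]
        have h1 : (∑ x : ZMod p, χ (x + b) * (starRingEnd ℂ) (χ (x + b))).re ≤ p :=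
          (Complex.re_le_norm _).trans (hdiag b)
        have h2 : ∑ c ∈ B.erase b, (∑ x : ZMod p, χ (x + b) *
            (starRingEnd ℂ) (χ (x + c))).re ≤ 0 := by
          refine sum_nonpos fun c hc => ?_
          rw [hcorr b hb c (mem_of_mem_erase hc) (ne_of_mem_erase hc).symm]
          simp
        linarith
    _ = p * B.card := by rw [sum_const, nsmul_eq_mul, mul_comm]

/-- elementary bound for all non-trivial characters -/
theorem elementary (hχ : χ ≠ 1) (A B T : Finset (ZMod p)) (hT : (0 : ZMod p) ∉ T) :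
    (∑ t ∈ T, ‖dsum χ A B t‖) ^ 2 ≤ (p : ℝ) * B.card * energy A T := by
  have h := core χ 1 le_rfl A B T hT
  simp only [mul_one, Nat.sub_self, pow_zero, one_mul] at h
  refine h.trans ?_
  have h2 := second χ hχ B
  calc (energy A T : ℝ) * ∑ x : ZMod p, ‖∑ b ∈ B, χ (x + b)‖ ^ 2
      ≤ (energy A T : ℝ) * (p * B.card) := mul_le_mul_of_nonneg_left h2 (Nat.cast_nonneg _)
    _ = (p : ℝ) * B.card * energy A T := by ring

end Pool.Agent.H435R3.Paley
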