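import Pool.Agent.H471R4.BW.TUP
import Pool.Agent.H471R4.BW.HOL

/-! # High moments of character sums over arbitrary sets of shifts -/

set_option autoImplicit false

namespace Pool.Agent.H435R3.Paley

open Finset Pool.Agent.H471R4.BW

variable {N : ℕ} [NeZero N] (χ : DirichletCharacter ℂ N)

/-- the product over a pair of tuples -/
noncomputable def term (r n : ℕ) (w : Fin n → ZMod N) (b c : Fin r → Fin n) (x : ZMod N) : ℂ :=
  (∏ i, χ (x + w (b i))) * ∏ i, (starRingEnd ℂ) (χ (x + w (c i)))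

theorem expand (r n : ℕ) (w : Fin n → ZMod N) (x : ZMod N) :
    ((‖∑ j, χ (x + w j)‖ ^ (2 * r) : ℝ) : ℂ) =
      ∑ b : Fin r → Fin n, ∑ c : Fin r → Fin n, term χ r n w b c x := by
  set S : ℂ := ∑ j, χ (x + w j) with hS
  have h1 : ((‖S‖ ^ (2 * r) : ℝ) : ℂ) = S ^ r * (starRingEnd ℂ) S ^ r := by
    rw [← mul_pow, Complex.mul_conj, Complex.normSq_eq_norm_sq, pow_mul]
    push_cast
    ring
  have h2 : S ^ r = ∑ b : Fin r → Fin n, ∏ i, χ (x + w (b i)) := by
    rw [hS, ← Fin.prod_const, Finset.prod_univ_sum, Fintype.piFinset_univ]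
  have h3 : (starRingEnd ℂ) S ^ r =
      ∑ c : Fin r → Fin n, ∏ i, (starRingEnd ℂ) (χ (x + w (c i))) := by
    rw [hS, map_sum, ← Fin.prod_const, Finset.prod_univ_sum, Fintype.piFinset_univ]
  rw [h1, h2, h3, Finset.sum_mul_sum]
  rfl

theorem term_norm_le (r n : ℕ) (w : Fin n → ZMod N) (b c : Fin r → Fin n) (x : ZMod N) :
    ‖term χ r n w b c x‖ ≤ 1 := by
  unfold term
  rw [norm_mul, norm_prod, norm_prod]
  refine mul_le_one₀ (Finset.prod_le_one (fun i _ => norm_nonneg _) fun i _ => ?_)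
    (Finset.prod_nonneg fun i _ => norm_nonneg _)
    (Finset.prod_le_one (fun i _ => norm_nonneg _) fun i _ => ?_)
  · exact χ.norm_le_one _
  · rw [RCLike.norm_conj]
    exact χ.norm_le_one _

theorem uniq_val {r n : ℕ} (w : Fin n → ZMod N) (hw : Function.Injective w)
    (b c : Fin r → Fin n) (h : Uniq (fun i => (b i : ℕ)) (fun i => (c i : ℕ))) :
    Uniq (fun i => (w (b i)).val) (fun i => (w (c i)).val) := by
  obtain ⟨v, hv⟩ := h
  have hvn : v < n := by
    by_contra hcon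
    have h1 : (univ.filter fun i => (b i : ℕ) = v) = ∅ :=
      filter_false_of_mem fun i _ hi => by have := (b i).2; omega
    have h2 : (univ.filter fun i => (c i : ℕ) = v) = ∅ :=
      filter_false_of_mem fun i _ hi => by have := (c i).2; omega
    rw [h1, h2] at hv
    simp at hv
  refine ⟨(w ⟨v, hvn⟩).val, ?_⟩
  rw [← hv]
  have key : ∀ j : Fin n, ((w j).val = (w ⟨v, hvn⟩).val ↔ (j : ℕ) = v) := by
    intro j
    constructor
    · intro h1
      have h2 := ZMod.val_injective N h1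
      have h3 := hw h2
      rw [h3]
    · intro h1
      have : j = ⟨v, hvn⟩ := Fin.ext h1
      rw [this]
  congr 1
  · congr 1
    ext i
    simp only [mem_filter, mem_univ, true_and]
    exact key (b i)
  · congr 1
    ext i
    simp only [mem_filter, mem_univ, true_and]
    exact key (c i)

open Classical in
theorem momB (h : TUP) (r n : ℕ) (K : ℝ) (hr : 1 ≤ r) (hK : 0 ≤ K) (w : Fin n → ZMod N)
    (hw : Function.Injective w) (hC : Complete N χ r N K) :
    ∑ x : ZMod N, ‖∑ j, χ (x + w j)‖ ^ (2 * r) ≤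
      (r : ℝ) ^ (2 * r) * (n : ℝ) ^ r * N + K * (n : ℝ) ^ (2 * r) * Real.sqrt N := by
  have hW : ((∑ x : ZMod N, ‖∑ j, χ (x + w j)‖ ^ (2 * r) : ℝ) : ℂ) =
      ∑ u : (Fin r → Fin n) × (Fin r → Fin n), ∑ x : ZMod N, term χ r n w u.1 u.2 x := by
    rw [Finset.sum_comm]
    push_cast
    refine Finset.sum_congr rfl fun x _ => ?_
    have := expand χ r n w x
    push_cast at this
    rw [this, ← Finset.univ_product_univ, Finset.sum_product]
  have hW0 : 0 ≤ ∑ x : ZMod N, ‖∑ j, χ (x + w j)‖ ^ (2 * r) :=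
    Finset.sum_nonneg fun x _ => by positivity
  have hW1 : ∑ x : ZMod N, ‖∑ j, χ (x + w j)‖ ^ (2 * r) =
      ‖∑ u : (Fin r → Fin n) × (Fin r → Fin n), ∑ x : ZMod N, term χ r n w u.1 u.2 x‖ := by
    rw [← hW, Complex.norm_real, Real.norm_eq_abs, abs_of_nonneg hW0]
  rw [hW1]
  refine (norm_sum_le _ _).trans ?_
  rw [← Finset.sum_filter_add_sum_filter_not Finset.univ
    (fun u : (Fin r → Fin n) × (Fin r → Fin n) =>
      ¬ Uniq (fun i => (u.1 i : ℕ)) (fun i => (u.2 i : ℕ)))]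
  refine add_le_add ?_ ?_
  · have h1 : ∀ u ∈ Finset.univ.filter (fun u : (Fin r → Fin n) × (Fin r → Fin n) =>
        ¬ Uniq (fun i => (u.1 i : ℕ)) (fun i => (u.2 i : ℕ))),
        ‖∑ x : ZMod N, term χ r n w u.1 u.2 x‖ ≤ (N : ℝ) := by
      intro u _
      refine (norm_sum_le _ _).trans ?_
      calc ∑ x : ZMod N, ‖term χ r n w u.1 u.2 x‖ ≤ ∑ _x : ZMod N, (1 : ℝ) :=
            Finset.sum_le_sum fun x _ => term_norm_le χ r n w u.1 u.2 x
        _ = N := by simp
    refine (Finset.sum_le_card_nsmul _ _ _ h1).trans ?_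
    rw [nsmul_eq_mul]
    have h2 : (((Finset.univ.filter (fun u : (Fin r → Fin n) × (Fin r → Fin n) =>
        ¬ Uniq (fun i => (u.1 i : ℕ)) (fun i => (u.2 i : ℕ)))).card : ℕ) : ℝ) ≤
        (r : ℝ) ^ (2 * r) * (n : ℝ) ^ r := by
      exact_mod_cast h r n hr
    exact mul_le_mul_of_nonneg_right h2 (Nat.cast_nonneg N)
  · have h1 : ∀ u ∈ Finset.univ.filter (fun u : (Fin r → Fin n) × (Fin r → Fin n) =>
        ¬ ¬ Uniq (fun i => (u.1 i : ℕ)) (fun i => (u.2 i : ℕ))),
        ‖∑ x : ZMod N, term χ r n w u.1 u.2 x‖ ≤ K * Real.sqrt N := by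
      intro u hu
      rw [Finset.mem_filter] at hu
      have h3 := hC (fun i => (w (u.1 i)).val) (fun i => (w (u.2 i)).val)
        (fun i => ZMod.val_lt _) (fun i => ZMod.val_lt _)
        (uniq_val w hw u.1 u.2 (not_not.1 hu.2))
      simp only [ZMod.natCast_zmod_val] at h3
      exact h3
    refine (Finset.sum_le_card_nsmul _ _ _ h1).trans ?_
    rw [nsmul_eq_mul]
    have h2 : (((Finset.univ.filter (fun u : (Fin r → Fin n) × (Fin r → Fin n) =>
        ¬ ¬ Uniq (fun i => (u.1 i : ℕ)) (fun i => (u.2 i : ℕ)))).card : ℕ) : ℝ) ≤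
        (n : ℝ) ^ (2 * r) := by
      have h3 := Finset.card_filter_le (Finset.univ : Finset ((Fin r → Fin n) × (Fin r → Fin n)))
        (fun u => ¬ ¬ Uniq (fun i => (u.1 i : ℕ)) (fun i => (u.2 i : ℕ)))
      have h4 : (Finset.univ : Finset ((Fin r → Fin n) × (Fin r → Fin n))).card = n ^ (2 * r) := by
        rw [Finset.card_univ, Fintype.card_prod, Fintype.card_fun, Fintype.card_fin,
          Fintype.card_fin, two_mul, pow_add]
      rw [h4] at h3
      exact_mod_cast h3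
    calc _ ≤ (n : ℝ) ^ (2 * r) * (K * Real.sqrt N) :=
          mul_le_mul_of_nonneg_right h2 (mul_nonneg hK (Real.sqrt_nonneg _))
      _ = K * (n : ℝ) ^ (2 * r) * Real.sqrt N := by ring

/-- the same bound for a finite set of shifts -/
theorem momF (r : ℕ) (K : ℝ) (hr : 1 ≤ r) (hK : 0 ≤ K) (B : Finset (ZMod N))
    (hC : Complete N χ r N K) :
    ∑ x : ZMod N, ‖∑ b ∈ B, χ (x + b)‖ ^ (2 * r) ≤
      (r : ℝ) ^ (2 * r) * (B.card : ℝ) ^ r * N + K * (B.card : ℝ) ^ (2 * r) * Real.sqrt N := by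
  classical
  have h := momB χ tup r B.card K hr hK (fun j => (B.equivFin.symm j : ZMod N))
    (fun i j hij => B.equivFin.symm.injective (Subtype.ext hij)) hC
  have e : ∀ x : ZMod N, ∑ j : Fin B.card, χ (x + (B.equivFin.symm j : ZMod N)) =
      ∑ b ∈ B, χ (x + b) := by
    intro x
    rw [Equiv.sum_comp B.equivFin.symm (fun b : B => χ (x + (b : ZMod N)))]
    exact Finset.sum_coe_sort B (fun b => χ (x + b))
  simp only [e] at h
  exact h

end Pool.Agent.H435R3.Paley
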