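import Pool.Agent.H435R3.Paley.Inv

/-! # Invariant sets: the condition on pairs in the same orbit -/

set_option autoImplicit false

namespace Pool.Agent.H435R3.Paley

open Finset Pool.Agent.H471R4.BW

open Classical in
/-- sets `B` that are invariant under a group `H` of dilations, sets `A` with few pairs in the
same orbit of `H` -/
theorem pairs (ε : ℝ) (hε : 0 < ε) : ∃ δ : ℝ, 0 < δ ∧ ∀ K : ℕ → ℝ, (∀ r, 0 ≤ K r) →
    ∃ p₀ : ℕ, ∀ (p : ℕ) [Fact p.Prime], p₀ ≤ p → ∀ χ : DirichletCharacter ℂ p, Good p χ K →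
    ∀ (H : Subgroup (ZMod p)ˣ) (A B : Finset (ZMod p)), (0 : ZMod p) ∉ A →
      (∀ h ∈ H, ∀ b ∈ B, (h : ZMod p) * b ∈ B) → (p : ℝ) ^ ε ≤ B.card →
      (((A ×ˢ A).filter fun w => ∃ h ∈ H, (h : ZMod p) * w.1 = w.2).card : ℝ) *
        (p : ℝ) ^ (1 / 2 + ε) ≤ (A.card : ℝ) ^ 2 * Nat.card H →
      ‖∑ a ∈ A, ∑ b ∈ B, χ (a + b)‖ ≤ (p : ℝ) ^ (-δ) * (A.card * B.card) := by
  obtain ⟨δ, hδ, h⟩ := avg ε hε
  refine ⟨δ, hδ, fun K hK => ?_⟩
  obtain ⟨p₀, hp₀⟩ := h K hK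
  refine ⟨p₀, fun p _ hp χ hχ H A B hA0 hinv hB hA => ?_⟩
  have hpp : p.Prime := Fact.out
  have hp0 : (0 : ℝ) < p := by exact_mod_cast hpp.pos
  set T : Finset (ZMod p) := (univ.filter fun h : (ZMod p)ˣ => h ∈ H).image
    (fun h : (ZMod p)ˣ => (h : ZMod p)) with hT
  have hTmem : ∀ t, t ∈ T ↔ ∃ h : (ZMod p)ˣ, h ∈ H ∧ (h : ZMod p) = t := by
    intro t
    rw [hT, mem_image]
    simp
  have hT0 : (0 : ZMod p) ∉ T := by
    rw [hTmem]
    rintro ⟨h, -, h0⟩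
    exact h.ne_zero h0
  have hTcard : T.card = Nat.card H := by
    rw [hT, card_image_of_injective _ Units.val_injective, Nat.card_eq_fintype_card,
      Fintype.card_subtype]
  have hconst : ∀ t ∈ T, dsum χ A B t = ∑ a ∈ A, ∑ b ∈ B, χ (a + b) := by
    intro t ht
    obtain ⟨h, hh, rfl⟩ := (hTmem t).1 ht
    unfold dsum
    refine sum_congr rfl fun a _ => ?_
    refine Finset.sum_bij (fun b _ => (h : ZMod p) * b) (fun b hb => hinv h hh b hb)
      (fun b _ c _ hbc => mul_left_cancel₀ h.ne_zero hbc) (fun c hc => ?_) (fun b _ => rfl)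
    refine ⟨((h⁻¹ : (ZMod p)ˣ) : ZMod p) * c, hinv _ (H.inv_mem hh) c hc, ?_⟩
    rw [← mul_assoc, Units.mul_inv, one_mul]
  set N := (A ×ˢ A).filter fun w => ∃ h ∈ H, (h : ZMod p) * w.1 = w.2 with hN
  have hE : energy A T ≤ N.card * T.card := by
    unfold energy
    rw [← card_product]
    refine Finset.card_le_card_of_injOn (fun w => ((w.1.1, w.2.1), w.1.2)) ?_ ?_
    · intro w hw
      rw [mem_coe, mem_filter, mem_product, mem_product, mem_product] at hw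
      obtain ⟨⟨⟨h1, h2⟩, h3, h4⟩, h5⟩ := hw
      rw [mem_coe, mem_product, hN, mem_filter, mem_product]
      refine ⟨⟨⟨h1, h3⟩, ?_⟩, h2⟩
      obtain ⟨g, hg, hg2⟩ := (hTmem _).1 h2
      obtain ⟨k, hk, hk2⟩ := (hTmem _).1 h4
      refine ⟨k * g⁻¹, H.mul_mem hk (H.inv_mem hg), ?_⟩
      simp only
      rw [← hg2, ← hk2] at h5
      rw [Units.val_mul]
      calc (k : ZMod p) * ((g⁻¹ : (ZMod p)ˣ) : ZMod p) * w.1.1 =
            (w.1.1 * k) * ((g⁻¹ : (ZMod p)ˣ) : ZMod p) := by ring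
        _ = w.2.1 * (g : ZMod p) * ((g⁻¹ : (ZMod p)ˣ) : ZMod p) := by rw [h5]
        _ = w.2.1 := by rw [mul_assoc, Units.mul_inv, mul_one]
    · intro w hw w' hw' h2
      rw [mem_coe, mem_filter, mem_product, mem_product, mem_product] at hw hw'
      simp only [Prod.mk.injEq] at h2
      obtain ⟨⟨e1, e2⟩, e3⟩ := h2
      have h0 : w.1.1 ≠ 0 := fun h0 => hA0 (h0 ▸ hw.1.1.1)
      have e4 : w.2.2 = w'.2.2 := by
        have h5 := hw.2
        have h6 := hw'.2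
        rw [← e1, ← e2, ← e3, ← h5] at h6
        exact (mul_left_cancel₀ h0 h6).symm
      exact Prod.ext (Prod.ext e1 e3) (Prod.ext e2 e4)
  have hE' : (energy A T : ℝ) * (p : ℝ) ^ (1 / 2 + ε) ≤ ((A.card : ℝ) * T.card) ^ 2 := by
    have h1 : (energy A T : ℝ) ≤ (N.card : ℝ) * T.card := by exact_mod_cast hE
    rw [← hTcard] at hA
    calc _ ≤ ((N.card : ℝ) * T.card) * (p : ℝ) ^ (1 / 2 + ε) :=
          mul_le_mul_of_nonneg_right h1 (by positivity)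
      _ = (T.card : ℝ) * (N.card * (p : ℝ) ^ (1 / 2 + ε)) := by ring
      _ ≤ (T.card : ℝ) * ((A.card : ℝ) ^ 2 * T.card) :=
          mul_le_mul_of_nonneg_left hA (by positivity)
      _ = _ := by ring
  have h1 := hp₀ p hp χ hχ A B T hT0 hB hE'
  rw [sum_congr rfl fun t ht => by rw [hconst t ht], sum_const, nsmul_eq_mul] at h1
  have hTpos : (0 : ℝ) < T.card := by
    rw [hTcard]
    exact_mod_cast Nat.card_pos
  have h2 : (T.card : ℝ) * ‖∑ a ∈ A, ∑ b ∈ B, χ (a + b)‖ ≤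
      (T.card : ℝ) * ((p : ℝ) ^ (-δ) * (A.card * B.card)) := by
    refine h1.trans (le_of_eq ?_)
    ring
  exact le_of_mul_le_mul_left h2 hTpos

end Pool.Agent.H435R3.Paley
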