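import Pool.Agent.H435R3.Paley.Inv
import Pool.Agent.H471R4.BW.CSL
import Pool.Agent.H471R4.BW.WEL
import Pool.Agent.H471R4.BW.CRD
import Pool.Agent.H471R4.BW.COR
import Pool.Agent.H471R4.BW.NV1
import Pool.Agent.H471R4.BW.NV0

/-! # Characters of prime order -/

set_option autoImplicit false

namespace Pool.Agent.H435R3.Paley

open Finset Pool.Agent.H471R4.BW

theorem good_of_prime_order (ℓ : ℕ) (hℓ : ℓ.Prime) : ∃ K : ℕ → ℝ, (∀ r, 0 ≤ K r) ∧
    ∀ (p : ℕ) [Fact p.Prime] (χ : DirichletCharacter ℂ p), χ ≠ 1 → χ ^ ℓ = 1 → Good p χ K := by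
  obtain ⟨K, hK, h⟩ := csl (wel (crd (cor (nv1 nv0)))) ℓ hℓ
  refine ⟨K, hK, fun p _ χ hχ hχℓ r hr => ?_⟩
  have hpp : p.Prime := Fact.out
  have hord : orderOf χ = ℓ := by
    rcases (Nat.dvd_prime hℓ).1 (orderOf_dvd_of_pow_eq_one hχℓ) with h1 | h1
    · exact absurd (orderOf_eq_one_iff.1 h1) hχ
    · exact h1
  have hdvd : ℓ ∣ p - 1 := by
    have h1 := MulChar.orderOf_dvd_card_sub_one (F := ZMod p) χ
    rw [hord, ZMod.card] at h1
    exact h1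
  have h2 := h 1 p hpp hdvd le_rfl χ hχ hχℓ r p hr
  rw [Real.rpow_one] at h2
  exact h2 le_rfl

end Pool.Agent.H435R3.Paley
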